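import Pool.Agent.N234.NL.Main

set_option autoImplicit false

open scoped Manifold ContDiff Topology
open Set Filter

namespace Pool.Agent.Results.MP_0a0487_an.OneSidedNilpotentCovered

open Pool.Agent.H721R2 Pool.Agent.H789R2.AN Pool.Agent.N234.NL

/-- **Manifolds carrying an Anosov diffeomorphism whose unstable leaves are at most polynomially
distorted in a nilpotent cover are aspherical with nilpotent fundamental group.**
Let `f` be a `C¹` Anosov diffeomorphism of a closed connected smooth manifold `M`.  Let
`0 = V 0 ⊆ V 1 ⊆ ⋯ ⊆ V d = W` be a flag of subspaces of a finite-dimensional complex vector space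
`W`, `U = Unip V` the nilpotent group of the unipotent operators of the flag
(`(u - 1) (V (j + 1)) ⊆ V j`), and `T` ANY invertible operator that preserves the flag.  Let `C` be a
cocycle near the diagonal of `M × M` with values in `U`, invariant under `f` up to the conjugation
with `T` and a twist (`LocalCocycle`); for instance the local displacement of a lift of a continuous
map `φ : M → Γ\N` to a nilmanifold with `φ ∘ f` homotopic to `A ∘ φ`, `A` an automorphism of `N`.
Suppose that the unstable leaves are polynomially properly displaced by `C` (`PolyDisplaced C`): for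
every neighbourhood `𝒰` of the diagonal there are constants `a`, `b` such that, if `γ` is a path in
an unstable leaf and `θ` is a lift of `γ` to `U`, then `f⁻ⁿ(γ 0)` and `f⁻ⁿ(γ 1)` are `𝒰`-close for
all `n ≥ a log (1 + ‖(θ 0)⁻¹ θ 1‖) + b`; this holds if the lifts of the unstable leaves to the
nilpotent cover of `M` given by `C` have at most polynomial distortion.

Nothing is assumed on the stable foliation, on the kernel of the cover (`π₁(M)` is not assumed to be
nilpotent), on the universal cover of `M`, on the dimensions, or on the eigenvalues of `T`.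

Then `M` is covered by the vector space `E` it is modelled on, that is, the universal cover of `M` is
homeomorphic to `ℝⁿ`; and `π₁(M)` is a torsion-free nilpotent group, isomorphic to a subgroup of
`U`. -/
theorem result (E : Type*) [NormedAddCommGroup E] [NormedSpace ℝ E] [FiniteDimensional ℝ E]
    (M : Type*) [TopologicalSpace M] [T2Space M] [CompactSpace M] [ConnectedSpace M]
    [ChartedSpace E M] [IsManifold 𝓘(ℝ, E) ∞ M] (f : Diffeomorph 𝓘(ℝ, E) 𝓘(ℝ, E) M M 1)
    (Es Eu : ∀ x : M, Submodule ℝ (TangentSpace 𝓘(ℝ, E) x)) (hf : IsAnosov f Es Eu)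
    (W : Type*) [NormedAddCommGroup W] [NormedSpace ℂ W] [FiniteDimensional ℂ W]
    (V : ℕ → Submodule ℂ W) (d : ℕ) (h0 : V 0 = ⊥) (hd : V d = ⊤) (hV : Monotone V)
    (T : (W →L[ℂ] W)ˣ) (hT : ∀ j, ∀ w ∈ V j, (T : W →L[ℂ] W) w ∈ V j)
    (C : LocalCocycle f.toHomeomorph (Unip V) T) (hC : PolyDisplaced C) :
    (∃ q : E → M, IsCoveringMap q ∧ Function.Surjective q) ∧
      ∀ x : M, Group.IsNilpotent (FundamentalGroup M x) ∧
        (∀ (a : FundamentalGroup M x) (n : ℕ), n ≠ 0 → a ^ n = 1 → a = 1) ∧
        ∃ ρ : FundamentalGroup M x →* (W →L[ℂ] W)ˣ, Function.Injective ρ ∧ ∀ a, ρ a ∈ Unip V := by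
  obtain ⟨-, -, -, h4, h5⟩ := nil_main (flagFA V d h0 hd hV T hT) f Es Eu hf (Unip V)
    (flagFA_U V d h0 hd hV T hT) C hC
  refine ⟨h4, fun x => ?_⟩
  obtain ⟨ρ, hρ1, hρ2⟩ := h5 x
  have hρ3 : ∀ a, ρ a ∈ (flagFA V d h0 hd hV T hT).U := fun a => by
    rw [← SetLike.mem_coe, flagFA_U]
    exact hρ2 a
  refine ⟨(flagFA V d h0 hd hV T hT).isNilpotent_of_injective ρ hρ1 hρ3, fun a n hn ha => ?_,
    ρ, hρ1, hρ2⟩
  apply hρ1
  rw [map_one]
  exact (flagFA V d h0 hd hV T hT).torsion_free (hρ3 a) hn (by rw [← map_pow, ha, map_one])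

end Pool.Agent.Results.MP_0a0487_an.OneSidedNilpotentCovered
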