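import Pool.Agent.N520.P.B6

/-!
# Anosov diffeomorphisms with coarsely round leaves: coverings
-/

set_option autoImplicit false

open scoped Manifold ContDiff Topology
open Set Filter

namespace Pool.Agent.Results.MP_0a0487_an.RoundLeavesCovered

open Pool.Agent.H721R2 Pool.Agent.H789R2.AN Pool.Agent.N520.P

/-- **Anosov diffeomorphisms with coarsely round leaves: the universal cover.**
Let `f` be a `C¹` Anosov diffeomorphism of a closed connected manifold `M` modelled on the
finite-dimensional space `E`.  For every sufficiently small neighbourhood `𝒰` of the diagonal of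
`M × M` the following holds.

(1) If the coarse growth of the leaves has a gap (`GrowthGap f 𝒰`) then there is a surjective
covering map `E → M`, where `E ≅ ℝⁿ`, `n = dim M`.

(2) There is a number `L > 1` such that `f` has a growth gap in each of the following cases.
* `f⁻ⁿ` maps the local stable leaves to sets which are coarsely round, up to a factor `C Lⁿ`
  (`RoundLeaves f 𝒰 L`): if `x` and `y` are linked (they lie in the same local stable leaf) and `x`
  and `z` are not, then the distance of `f⁻ⁿ x` and `f⁻ⁿ y` in the stable leaf (the least number of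
  links in a chain) is at most `C Lⁿ` times that of `f⁻ⁿ x` and `f⁻ⁿ z`.  This is a condition at
  each centre `x` separately, and nothing is assumed on the unstable leaves.
* The same for the unstable leaves (`RoundLeaves f⁻¹ 𝒰 L`).

All conditions are topological: they are invariant under topological conjugacy. -/
theorem result (E : Type*) [NormedAddCommGroup E] [NormedSpace ℝ E] [FiniteDimensional ℝ E]
    (M : Type*) [TopologicalSpace M] [T2Space M] [CompactSpace M] [ConnectedSpace M]
    [ChartedSpace E M] [IsManifold 𝓘(ℝ, E) ∞ M] (f : Diffeomorph 𝓘(ℝ, E) 𝓘(ℝ, E) M M 1)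
    (Es Eu : ∀ x : M, Submodule ℝ (TangentSpace 𝓘(ℝ, E) x)) (hA : IsAnosov f Es Eu) :
    ∃ 𝒰₀ ∈ 𝓝ˢ (diagonal M), ∀ 𝒰 ∈ 𝓝ˢ (diagonal M), 𝒰 ⊆ 𝒰₀ →
      (GrowthGap f.toHomeomorph 𝒰 → ∃ π : E → M, IsCoveringMap π ∧ Function.Surjective π) ∧
      ∃ L : ℝ, 1 < L ∧ (RoundLeaves f.toHomeomorph 𝒰 L ∨ RoundLeaves f.toHomeomorph.symm 𝒰 L →
        GrowthGap f.toHomeomorph 𝒰) := by
  obtain ⟨𝒰₀, h1, h2⟩ := man_round f Es Eu hA
  refine ⟨𝒰₀, h1, fun 𝒰 h𝒰 hsub => ?_⟩
  obtain ⟨⟨L, hL, a1⟩, a2, -⟩ := h2 𝒰 h𝒰 hsub
  exact ⟨fun h => (a2 h).2.2, L, hL, fun h => (a1 (h.imp_right Or.inl)).gap⟩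

end Pool.Agent.Results.MP_0a0487_an.RoundLeavesCovered
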